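import Pool.Agent.helper2.BB.Spec

/-!
# bb: B5a (helper77): glueing and translating absolutely continuous functions
-/

set_option autoImplicit false

namespace BB

open Metric MeasureTheory Set Filter Topology Asymptotics
open Pool.Agent.helper37.PR

/-- composition with a monotone 1-Lipschitz map -/
theorem B5a_comp {E : Type} [NormedAddCommGroup E] {f : ℝ → E} {a b c d : ℝ} {φ : ℝ → ℝ}
    (hf : AbsolutelyContinuousOnInterval f a b) (hm : Monotone φ)
    (hl : ∀ x y, dist (φ x) (φ y) ≤ dist x y) (hmap : ∀ x ∈ uIcc c d, φ x ∈ uIcc a b) :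
    AbsolutelyContinuousOnInterval (fun t => f (φ t)) c d := by
  rw [absolutelyContinuousOnInterval_iff] at hf ⊢
  intro ε hε
  obtain ⟨δ, hδ, h⟩ := hf ε hε
  refine ⟨δ, hδ, fun E hE hlen => ?_⟩
  refine h (E.1, fun i => (φ (E.2 i).1, φ (E.2 i).2)) ⟨?_, ?_⟩
    (lt_of_le_of_lt (Finset.sum_le_sum fun i _ => hl _ _) hlen)
  · intro i hi
    exact ⟨hmap _ (hE.1 i hi).1, hmap _ (hE.1 i hi).2⟩
  · intro i hi j hj hij
    have h1 := hE.2 hi hj hij
    simp only [Function.onFun, uIoc, Ioc_disjoint_Ioc] at h1 ⊢
    have h2 := hm h1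
    simp only [hm.map_min, hm.map_max] at h2
    exact h2

theorem B5a : B5a_stmt := by
  intro E _ f g T T' hT hTT hf hg hfg
  have e : (fun t => if t ≤ T then f t else g (t - T)) =
      (fun t => f (min t T)) + (fun t => g (max t T - T)) - (fun _ => f T) := by
    funext t
    simp only [Pi.add_apply, Pi.sub_apply]
    split_ifs with h
    · rw [min_eq_left h, max_eq_right h, sub_self, ← hfg]
      abel
    · have h' : T ≤ t := le_of_lt (not_le.1 h)
      rw [min_eq_right h', max_eq_left h']
      abel
  rw [e]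
  have h1 : AbsolutelyContinuousOnInterval (fun t => f (min t T)) 0 T' := by
    refine B5a_comp hf (fun x y hxy => min_le_min hxy le_rfl) (fun x y => ?_) (fun x hx => ?_)
    · rw [Real.dist_eq, Real.dist_eq]
      have := abs_min_sub_min_le_max x T y T
      simpa using this
    · rw [uIcc_of_le (le_trans hT hTT)] at hx
      rw [uIcc_of_le hT]
      exact ⟨le_min hx.1 hT, min_le_right _ _⟩
  have h2 : AbsolutelyContinuousOnInterval (fun t => g (max t T - T)) 0 T' := by
    refine B5a_comp (φ := fun t => max t T - T) hg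
      (fun x y hxy => sub_le_sub_right (max_le_max hxy le_rfl) _) (fun x y => ?_) (fun x hx => ?_)
    · rw [Real.dist_eq, Real.dist_eq]
      have := abs_max_sub_max_le_max x T y T
      simpa using this
    · rw [uIcc_of_le (le_trans hT hTT)] at hx
      rw [uIcc_of_le (by linarith)]
      exact ⟨sub_nonneg.2 (le_max_right _ _), sub_le_sub_right (max_le hx.2 hTT) _⟩
  have h3 : AbsolutelyContinuousOnInterval (fun _ : ℝ => f T) 0 T' := by
    rw [absolutelyContinuousOnInterval_iff]
    intro ε hε
    refine ⟨1, one_pos, fun E _ _ => ?_⟩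
    simpa using hε
  exact (h1.add h2).sub h3

end BB
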